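import Pool.Agent.KS6_89.Tip.Main

set_option autoImplicit false

/-!
# MP_bc229f_an: the Koebe function is not extremal for the exponents below one

For every exponent `lam` with `2/5 < lam < 1` and every radius `r` close to `1` there is a function
of the class `S` whose derivative has a larger integral mean of order `lam` over the circle of radius
`r` than the derivative of the Koebe function. The competitor is the Koebe map composed with a
conformal map of the half plane onto the half plane minus a small oscillating hull, placed at the
tip of the slit, of size comparable to `1 - r`: there the loss of growth at the pole of the Koebe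
function is only of order `(1 - r)^4`, whereas the gain in the mean is of order `(1 - r)^(1 + lam)`.
-/

namespace Pool.Agent.Results.MP_bc229f_an.TipPerturbation

open Pool.Agent.Helper766.Mean

/-- **The Koebe function does not maximise the integral means of the derivative for exponents
below one.** Let `2/5 < lam < 1`. For all `r` in some interval `(r₀, 1)` there is a function `f` in
the class `S` with `I_lam(r, f') > I_lam(r, k')`; in particular the best constant `C_lam` is larger
than `1`. -/
theorem result (lam : ℝ) (h1 : 2 / 5 < lam) (h2 : lam < 1) :
    (∃ r₀ : ℝ, r₀ < 1 ∧ ∀ r ∈ Set.Ioo r₀ 1, 0 < r ∧
      ∃ f : ℂ → ℂ, ClassS f ∧ intMean lam r koebe < intMean lam r f) ∧ 1 < bestConst lam :=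
  Pool.Agent.KS6_89.Tip.main_tip h1 h2

end Pool.Agent.Results.MP_bc229f_an.TipPerturbation
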